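import Mathlib

namespace Pool.Agent.Results.MP_b00f03_nt.NoRootless

/-- The part of the open first quadrant lying in the subfield `K` of `ℂ`. -/
def D0 (K : Subfield ℂ) : Set ℂ := {z | z ∈ K ∧ 0 < z.re ∧ 0 < z.im}

/-- Membership in `SL_2(ℕ_0)`: nonnegative integer entries, determinant one. -/
def InSL2N0 (T : Matrix (Fin 2) (Fin 2) ℕ) : Prop :=
  (T 0 0 : ℤ) * T 1 1 - T 0 1 * T 1 0 = 1

/-- The action `z ↦ (a z + b) / (c z + d)`. -/
noncomputable def act (T : Matrix (Fin 2) (Fin 2) ℕ) (z : ℂ) : ℂ :=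
  (T 0 0 * z + T 0 1) / (T 1 0 * z + T 1 1)

/-- Left-right pairs of matrices of `SL_2(ℕ_0)` (with respect to `K`). -/
structure IsLeftRightPair (K : Subfield ℂ) (L R : Matrix (Fin 2) (Fin 2) ℕ) : Prop where
  left_mem : InSL2N0 L
  right_mem : InSL2N0 R
  left_ne : L ≠ 1
  right_ne : R ≠ 1
  disj : Disjoint (act L '' D0 K) (act R '' D0 K)

/-- `IsParent K L R z w`: there is an edge `z → w` of the forest, that is
`w = L(z)` or `w = R(z)`. -/
def IsParent (K : Subfield ℂ) (L R : Matrix (Fin 2) (Fin 2) ℕ) (z w : D0 K) : Prop :=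
  (w : ℂ) = act L z ∨ (w : ℂ) = act R z

/-- The undirected graph underlying the forest `F(L,R)`. -/
def forest (K : Subfield ℂ) (L R : Matrix (Fin 2) (Fin 2) ℕ) : SimpleGraph (D0 K) :=
  SimpleGraph.fromRel (IsParent K L R)

/-- An orphan is a vertex without a parent. -/
def IsOrphan (K : Subfield ℂ) (L R : Matrix (Fin 2) (Fin 2) ℕ) (w : D0 K) : Prop :=
  ∀ z : D0 K, ¬ IsParent K L R z w

/-- The forest has a rootless component: a connected component without an orphan. -/
def HasRootlessComponent (K : Subfield ℂ) (L R : Matrix (Fin 2) (Fin 2) ℕ) : Prop :=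
  ∃ C : (forest K L R).ConnectedComponent, ∀ w ∈ C.supp, ¬ IsOrphan K L R w

/-- Key estimate: if `z = (a w + b)/(c w + d)` with `z, w` in the open first quadrant, then
the entries are bounded in terms of `z`. -/
theorem entries_bound (z w : ℂ) (hw : 0 < w.re ∧ 0 < w.im) (hz : 0 < z.re ∧ 0 < z.im)
    (a b c d : ℕ) (hdet : a * d = b * c + 1) (h : z * (c * w + d) = a * w + b) :
    ((a : ℝ) + b + c + d) ≤
      (1 + (z.re + z.re * (1 / (2 * z.im))) * (1 / (2 * z.im))) + (z.re + z.re * (1 / (2 * z.im)))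
        + 1 / (2 * z.im) + (1 + 1 / (2 * z.im)) := by
  obtain ⟨hu, hv⟩ := hw
  obtain ⟨hx, hy⟩ := hz
  set x := z.re with hxdef
  set y := z.im with hydef
  set u := w.re with hudef
  set v := w.im with hvdef
  have h1 : x * (c * u + d) - y * (c * v) = a * u + b := by
    have := congrArg Complex.re h
    simpa using this
  have h2 : x * (c * v) + y * (c * u + d) = a * v := by
    have := congrArg Complex.im h
    simpa using this
  have hd : 1 ≤ d := by
    rcases Nat.eq_zero_or_pos d with h0 | h0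
    · subst h0; simp at hdet
    · exact h0
  have hdR : (1 : ℝ) ≤ d := by exact_mod_cast hd
  have hcR : (0 : ℝ) ≤ c := Nat.cast_nonneg c
  have hbR : (0 : ℝ) ≤ b := Nat.cast_nonneg b
  have haR : (0 : ℝ) ≤ a := Nat.cast_nonneg a
  have hdetR : (a : ℝ) * d = b * c + 1 := by exact_mod_cast hdet
  -- a - x c > 0
  have h3 : 0 < ((a : ℝ) - x * c) * v := by
    have : ((a : ℝ) - x * c) * v = y * (c * u + d) := by linarith
    rw [this]; positivity
  have h4 : 0 < (a : ℝ) - x * c := by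
    by_contra hcon
    push Not at hcon
    nlinarith
  have h5 : x * d - b = y * (c * v) + (a - x * c) * u := by linarith
  have h6 : (b : ℝ) < x * d := by
    have : 0 < (a - x * c) * u := mul_pos h4 hu
    have : 0 ≤ y * (c * v) := by positivity
    linarith
  have h7 : 2 * c * d * y ≤ 1 := by
    have e1 : (d : ℝ) * (a - x * c) + c * (x * d - b) = 1 := by linarith
    have e2 : (d : ℝ) * (((a : ℝ) - x * c) * v) + c * (x * d - b) * v = v := by
      have : (d : ℝ) * (((a : ℝ) - x * c) * v) + c * (x * d - b) * v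
        = ((d : ℝ) * (a - x * c) + c * (x * d - b)) * v := by ring
      rw [this, e1, one_mul]
    have e3 : ((a : ℝ) - x * c) * v = y * (c * u + d) := by linarith
    rw [e3, h5] at e2
    have e4 : 0 ≤ (d : ℝ) * (y * (c * u)) := by positivity
    have e5 : 0 ≤ (c : ℝ) * ((a - x * c) * u) * v := by positivity
    have e6 : y * ((d : ℝ) ^ 2 + (c * v) ^ 2) ≤ v := by nlinarith
    have e7 : 2 * (c * v) * d ≤ (d : ℝ) ^ 2 + (c * v) ^ 2 := by
      nlinarith [sq_nonneg ((d : ℝ) - c * v)]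
    have e8 : y * (2 * (c * v) * d) ≤ v := le_trans (mul_le_mul_of_nonneg_left e7 hy.le) e6
    have e9 : (2 * c * d * y) * v ≤ 1 * v := by linarith
    exact le_of_mul_le_mul_right e9 hv
  have hinv : 0 < 1 / (2 * y) := by positivity
  rcases Nat.eq_zero_or_pos c with hc0 | hc0
  · subst hc0
    simp only [mul_zero, zero_add] at hdet
    have ha1 : a = 1 := Nat.eq_one_of_mul_eq_one_right hdet
    have hd1 : d = 1 := Nat.eq_one_of_mul_eq_one_left hdet
    subst ha1 hd1
    have hb1 : (b : ℝ) ≤ x := by simpa using h6.le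
    have p1 : 0 ≤ (x + x * (1 / (2 * y))) * (1 / (2 * y)) := by positivity
    have p2 : 0 ≤ x * (1 / (2 * y)) := by positivity
    push_cast
    linarith
  · have hc1 : (1 : ℝ) ≤ c := by exact_mod_cast hc0
    have hdle : (d : ℝ) ≤ 1 / (2 * y) := by
      rw [le_div_iff₀ (by positivity)]
      nlinarith [mul_le_mul_of_nonneg_right hc1 (by positivity : (0 : ℝ) ≤ d * y)]
    have hcle : (c : ℝ) ≤ 1 / (2 * y) := by
      rw [le_div_iff₀ (by positivity)]
      nlinarith [mul_le_mul_of_nonneg_right hdR (by positivity : (0 : ℝ) ≤ c * y)]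
    have hble : (b : ℝ) ≤ x + x * (1 / (2 * y)) := by
      have : x * d ≤ x * (1 / (2 * y)) := mul_le_mul_of_nonneg_left hdle hx.le
      linarith
    have hale : (a : ℝ) ≤ 1 + (x + x * (1 / (2 * y))) * (1 / (2 * y)) := by
      have q1 : (a : ℝ) ≤ a * d := by nlinarith
      have q2 : (b : ℝ) * c ≤ (x + x * (1 / (2 * y))) * (1 / (2 * y)) :=
        mul_le_mul hble hcle hcR (by positivity)
      linarith
    linarith

theorem parent_step (z w v : ℂ) (hw0 : 0 < w.im)
    (T : Matrix (Fin 2) (Fin 2) ℕ) (hT : InSL2N0 T) (hT1 : T ≠ 1) (hwv : w = act T v)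
    (a b c d : ℕ) (hdet : a * d = b * c + 1) (h : z * (c * w + d) = a * w + b) :
    ∃ a' b' c' d' : ℕ, a' * d' = b' * c' + 1 ∧ z * (c' * v + d') = a' * v + b' ∧
      a + b + c + d + 1 ≤ a' + b' + c' + d' := by
  unfold InSL2N0 at hT
  have hTn : T 0 0 * T 1 1 = T 0 1 * T 1 0 + 1 := by
    have : ((T 0 0 * T 1 1 : ℕ) : ℤ) = ((T 0 1 * T 1 0 + 1 : ℕ) : ℤ) := by push_cast; linarith
    exact_mod_cast this
  have hne : ¬ (T 0 1 = 0 ∧ T 1 0 = 0) := by
    rintro ⟨h01, h10⟩
    apply hT1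
    rw [h01, zero_mul, zero_add] at hTn
    have h00 := Nat.eq_one_of_mul_eq_one_right hTn
    have h11 := Nat.eq_one_of_mul_eq_one_left hTn
    ext i j
    fin_cases i <;> fin_cases j <;> simp [h00, h11, h01, h10]
  have hden : ((T 1 0 : ℂ) * v + T 1 1) ≠ 0 := by
    intro hcon
    unfold act at hwv
    rw [hcon, div_zero] at hwv
    rw [hwv] at hw0
    simp at hw0
  have hwv' : w * ((T 1 0 : ℂ) * v + T 1 1) = (T 0 0 : ℂ) * v + T 0 1 := by
    rw [hwv]; unfold act; rw [div_mul_cancel₀ _ hden]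
  have h00 : 1 ≤ T 0 0 := by
    rcases Nat.eq_zero_or_pos (T 0 0) with h0 | h0
    · rw [h0] at hTn; simp at hTn
    · exact h0
  have h11 : 1 ≤ T 1 1 := by
    rcases Nat.eq_zero_or_pos (T 1 1) with h0 | h0
    · rw [h0] at hTn; simp at hTn
    · exact h0
  have ha : 1 ≤ a := by
    rcases Nat.eq_zero_or_pos a with h0 | h0
    · subst h0; simp at hdet
    · exact h0
  have hd : 1 ≤ d := by
    rcases Nat.eq_zero_or_pos d with h0 | h0
    · subst h0; simp at hdet
    · exact h0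
  refine ⟨a * T 0 0 + b * T 1 0, a * T 0 1 + b * T 1 1, c * T 0 0 + d * T 1 0,
    c * T 0 1 + d * T 1 1, ?_, ?_, ?_⟩
  · have e : ((a * T 0 0 + b * T 1 0) * (c * T 0 1 + d * T 1 1) : ℤ)
        = (a * T 0 1 + b * T 1 1) * (c * T 0 0 + d * T 1 0) + 1 := by
      have hdz : (a : ℤ) * d = b * c + 1 := by exact_mod_cast hdet
      have e1 : ((a * T 0 0 + b * T 1 0) * (c * T 0 1 + d * T 1 1) : ℤ)
        - (a * T 0 1 + b * T 1 1) * (c * T 0 0 + d * T 1 0)
        = ((a : ℤ) * d - b * c) * ((T 0 0 : ℤ) * T 1 1 - T 0 1 * T 1 0) := by ring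
      rw [hT, hdz] at e1
      linarith
    exact_mod_cast e
  · push_cast
    have e1 : z * (((c : ℂ) * T 0 0 + d * T 1 0) * v + (c * T 0 1 + d * T 1 1))
        = z * (c * w + d) * (T 1 0 * v + T 1 1) := by
      have : z * (c * w + d) * (T 1 0 * v + T 1 1)
        = z * (c * (w * (T 1 0 * v + T 1 1)) + d * (T 1 0 * v + T 1 1)) := by ring
      rw [this, hwv']; ring
    have e2 : ((a : ℂ) * T 0 0 + b * T 1 0) * v + (a * T 0 1 + b * T 1 1)
        = (a * w + b) * (T 1 0 * v + T 1 1) := by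
      have : (a * w + b) * (T 1 0 * v + T 1 1)
        = (a * (w * (T 1 0 * v + T 1 1)) + b * (T 1 0 * v + T 1 1)) := by ring
      rw [this, hwv']; ring
    rw [e1, e2, h]
  · have hcases : 1 ≤ T 0 1 ∨ 1 ≤ T 1 0 := by
      by_contra hcon
      push Not at hcon
      exact hne ⟨by omega, by omega⟩
    have k1 : a ≤ a * T 0 0 := Nat.le_mul_of_pos_right a h00
    have k2 : b ≤ b * T 1 1 := Nat.le_mul_of_pos_right b h11
    have k3 : c ≤ c * T 0 0 := Nat.le_mul_of_pos_right c h00
    have k4 : d ≤ d * T 1 1 := Nat.le_mul_of_pos_right d h11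
    rcases hcases with h01 | h10
    · have k5 : 1 ≤ a * T 0 1 := Nat.mul_pos ha h01
      omega
    · have k5 : 1 ≤ d * T 1 0 := Nat.mul_pos hd h10
      omega

/-- Every connected component of every forest `F(L,R)` contains an orphan: the set of
left-right pairs whose forest has a rootless component is empty. -/
theorem result (K : Subfield ℂ) :
    {p : Matrix (Fin 2) (Fin 2) ℕ × Matrix (Fin 2) (Fin 2) ℕ |
      IsLeftRightPair K p.1 p.2 ∧ HasRootlessComponent K p.1 p.2} = ∅ := by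
  ext ⟨L, R⟩
  simp only [Set.mem_ofPred_eq, Set.mem_empty_iff_false, iff_false, not_and]
  intro hLR
  rintro ⟨C, hC⟩
  obtain ⟨z0, hz0⟩ := C.exists_rep
  have hz0C : z0 ∈ C.supp := hz0
  have key : ∀ n : ℕ, ∃ w : D0 K, w ∈ C.supp ∧ ∃ a b c d : ℕ, a * d = b * c + 1 ∧
      (z0 : ℂ) * (c * (w : ℂ) + d) = a * (w : ℂ) + b ∧ n ≤ a + b + c + d := by
    intro n
    induction n with
    | zero => exact ⟨z0, hz0C, 1, 0, 0, 1, by norm_num, by push_cast; ring, by norm_num⟩
    | succ n ih =>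
      obtain ⟨w, hwC, a, b, c, d, hdet, h, hn⟩ := ih
      have hnor := hC w hwC
      unfold IsOrphan at hnor
      push Not at hnor
      obtain ⟨v, hv⟩ := hnor
      have hv' := hv
      obtain ⟨T, hT, hT1, hwT⟩ : ∃ T : Matrix (Fin 2) (Fin 2) ℕ, InSL2N0 T ∧ T ≠ 1 ∧
          (w : ℂ) = act T v := by
        rcases hv with hv | hv
        · exact ⟨L, hLR.left_mem, hLR.left_ne, hv⟩
        · exact ⟨R, hLR.right_mem, hLR.right_ne, hv⟩
      obtain ⟨a', b', c', d', hdet', h', hs⟩ := parent_step z0 w v w.2.2.2 T hT hT1 hwT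
        a b c d hdet h
      refine ⟨v, ?_, a', b', c', d', hdet', h', by omega⟩
      by_cases hvw : v = w
      · rw [hvw]; exact hwC
      · have hadj : (forest K L R).Adj v w := by
          unfold forest
          rw [SimpleGraph.fromRel_adj]
          exact ⟨hvw, Or.inl hv'⟩
        rw [SimpleGraph.ConnectedComponent.mem_supp_iff] at hwC ⊢
        rw [← hwC]
        exact SimpleGraph.ConnectedComponent.sound hadj.reachable
  obtain ⟨n, hn⟩ := exists_nat_gt ((1 + ((z0 : ℂ).re + (z0 : ℂ).re * (1 / (2 * (z0 : ℂ).im)))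
    * (1 / (2 * (z0 : ℂ).im))) + ((z0 : ℂ).re + (z0 : ℂ).re * (1 / (2 * (z0 : ℂ).im)))
        + 1 / (2 * (z0 : ℂ).im) + (1 + 1 / (2 * (z0 : ℂ).im)))
  obtain ⟨w, _, a, b, c, d, hdet, h, hle⟩ := key n
  have hb := entries_bound z0 w w.2.2 z0.2.2 a b c d hdet h
  have hle' : (n : ℝ) ≤ (a : ℝ) + b + c + d := by exact_mod_cast hle
  linarith

end Pool.Agent.Results.MP_b00f03_nt.NoRootless
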